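import Pool.Agent.H.MP_65fbb9_lc.B

set_option autoImplicit false

/-! Nearly orthogonal codes and list decoding. -/

namespace Pool.Agent.H.MP_f1effe_lc

open Filter Pool.Agent.Lib.helper21 Encodable Pool.Agent.Lib.helper21.PR Finset Real
open Pool.Agent.H.MP_65fbb9_lc

theorem wsum (a b : ℝ) (Z : ℕ → Bool) : ∀ N,
    ∑ w ∈ range (2 ^ N), ∏ i ∈ range N, (if Fn.tb w i = Z i then a else b) = (a + b) ^ N
  | 0 => by simp
  | N + 1 => by
    rw [pow_succ, mul_two, sum_range_add, ← sum_add_distrib, pow_succ, ← wsum a b Z N, sum_mul]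
    refine sum_congr rfl fun w hw => ?_
    rw [prod_range_succ, prod_range_succ, prod_congr rfl (g := fun i => if Fn.tb w i = Z i then a else b)
      (f := fun i => if Fn.tb (2 ^ N + w) i = Z i then a else b)
      fun i hi => by rw [Fn.tb, Nat.testBit_two_pow_add_gt (mem_range.1 hi)]; rfl]
    simp only [Fn.tb, Nat.testBit_lt_two_pow (mem_range.1 hw), Nat.testBit_two_pow_add_eq]
    cases Z N <;> simp <;> ring

def sg (a b : Bool) : ℝ := if a = b then 1 else -1

def ip (N : ℕ) (Z Z' : ℕ → Bool) : ℝ := ∑ i ∈ range N, sg (Z i) (Z' i)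

theorem ip_eq (N : ℕ) (Z Z' : ℕ → Bool) : ip N Z Z' = N - 2 * ds N Z Z' := by
  have h := card_filter_add_card_filter_not (s := range N) fun i => Z i = Z' i
  rw [card_range] at h
  simp only [ip, sg, ds, sum_ite, sum_const, nsmul_eq_mul, ne_eq]
  have := congrArg (Nat.cast (R := ℝ)) h
  push_cast at this
  linarith

def Bias (t N : ℕ) (Z Z' : ℕ → Bool) : Prop :=
  N + 2 * t * ds N Z Z' < t * N ∨ t * N + N < 2 * t * ds N Z Z'

instance (t N : ℕ) (Z Z' : ℕ → Bool) : Decidable (Bias t N Z Z') := by unfold Bias; infer_instance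

theorem bias_iff {t N : ℕ} {Z Z' : ℕ → Bool} : Bias t N Z Z' ↔ (N : ℝ) < t * |ip N Z Z'| := by
  rw [← abs_of_nonneg (t.cast_nonneg (α := ℝ)), ← abs_mul, lt_abs, ip_eq, Bias,
    ← Nat.cast_lt (α := ℝ), ← Nat.cast_lt (α := ℝ)]
  push_cast
  exact or_congr ⟨fun _ => by linarith, fun _ => by linarith⟩ ⟨fun _ => by linarith, fun _ => by linarith⟩

theorem mgf (l : ℝ) (N : ℕ) (Z : ℕ → Bool) :
    ∑ w ∈ range (2 ^ N), exp (l * ip N (Fn.tb w) Z) ≤ 2 ^ N * exp (N * (l ^ 2 / 2)) := by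
  simp only [ip, sg, mul_sum, exp_sum, mul_ite, apply_ite exp, mul_one, mul_neg]
  rw [wsum, exp_nat_mul, ← mul_pow]
  have := cosh_le_exp_half_sq l
  rw [cosh_eq] at this
  exact pow_le_pow_left₀ (by positivity) (by linarith) _

theorem tail {t N q : ℕ} (ht : 0 < t) (h : 2 * t ^ 2 * (q + 1) ≤ N) (Z : ℕ → Bool) :
    ((range (2 ^ N)).filter fun w => Bias t N (Fn.tb w) Z).card * 2 ^ q < 2 ^ N := by
  have h0 : (0 : ℝ) < t := Nat.cast_pos.2 ht
  have h1 := (card_nsmul_le_sum ((range (2 ^ N)).filter fun w => Bias t N (Fn.tb w) Z)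
    (fun w => exp (1 / t * ip N (Fn.tb w) Z) + exp (-(1 / t) * ip N (Fn.tb w) Z))
    (exp (N * (1 / t) ^ 2)) fun w hw => by
      have h2 := bias_iff.1 (mem_filter.1 hw).2
      have h3 : N * (1 / t : ℝ) ^ 2 ≤ 1 / t * |ip N (Fn.tb w) Z| := by
        field_simp; linarith
      refine (exp_le_exp.2 h3).trans ?_
      rcases abs_choice (ip N (Fn.tb w) Z) with e | e <;> rw [e]
      · exact le_add_of_nonneg_right (exp_pos _).le
      · rw [mul_neg, ← neg_mul]; exact le_add_of_nonneg_left (exp_pos _).le).trans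
    ((sum_le_sum_of_subset_of_nonneg (filter_subset _ _) fun _ _ _ => by positivity).trans
      (sum_add_distrib.trans_le (add_le_add (mgf _ N Z) (mgf _ N Z))))
  have h2 : (2 : ℝ) ^ (q + 1) < exp (N * ((1 / t) ^ 2 / 2)) := by
    refine lt_of_lt_of_le (pow_lt_pow_left₀ (by linarith [add_one_lt_exp one_ne_zero] : 2 < exp 1)
      (by norm_num) q.succ_ne_zero) ?_
    rw [← exp_nat_mul, exp_le_exp]
    have : (2 * t ^ 2 * (q + 1) : ℝ) ≤ N := by exact_mod_cast h
    field_simp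
    push_cast
    linarith
  rw [neg_sq, show N * (1 / t : ℝ) ^ 2 = N * ((1 / t) ^ 2 / 2) + N * ((1 / t) ^ 2 / 2) by ring,
    exp_add, nsmul_eq_mul, ← mul_assoc, ← add_mul] at h1
  have h3 := le_of_mul_le_mul_right h1 (exp_pos _)
  rw [← Nat.cast_lt (α := ℝ)]
  push_cast
  rcases (Nat.cast_nonneg (α := ℝ) ((range (2 ^ N)).filter fun w =>
    Bias t N (Fn.tb w) Z).card).eq_or_lt with e | e
  · rw [← e, zero_mul]; positivity
  · rw [pow_succ] at h2
    nlinarith [mul_lt_mul_of_pos_left h2 e]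

theorem code {t N q : ℕ} (ht : 0 < t) (h : 2 * t ^ 2 * (q + 1) ≤ N) : ∀ s ≤ 2 ^ q, ∃ L : List ℕ,
    L.length = s ∧ ∀ u < s, ∀ v < u, ¬ Bias t N (Fn.tb (L.getD u 0)) (Fn.tb (L.getD v 0))
  | 0, _ => ⟨[], rfl, by simp⟩
  | s + 1, hs => by
    obtain ⟨L, h1, h2⟩ := code ht h s (by omega)
    obtain ⟨w, h3, h4⟩ := exists_mem_notMem_of_card_lt_card (t := range (2 ^ N))
      (s := (range s).biUnion fun v => (range (2 ^ N)).filter fun w =>
        Bias t N (Fn.tb w) (Fn.tb (L.getD v 0))) (by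
      refine Nat.lt_of_mul_lt_mul_right (a := 2 ^ q) ((Nat.mul_le_mul_right _
        card_biUnion_le).trans_lt ?_)
      rw [sum_mul, card_range]
      refine (sum_le_card_nsmul _ _ _ fun v _ => (tail ht h _).le).trans_lt ?_
      rw [card_range, mul_comm]
      exact Nat.mul_lt_mul_of_lt_of_le hs le_rfl (by positivity))
    refine ⟨L ++ [w], by simp [h1], fun u hu v hv => ?_⟩
    rw [List.getD_append _ _ _ v (by omega)]
    rcases Nat.lt_succ_iff_lt_or_eq.1 hu with c | rfl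
    · rw [List.getD_append _ _ _ u (by omega)]
      exact h2 u c v hv
    · rw [List.getD_append_right _ _ _ _ h1.le, h1, Nat.sub_self]
      exact fun c => h4 (mem_biUnion.2 ⟨v, mem_range.2 hv, mem_filter.2 ⟨h3, c⟩⟩)

theorem ip_comm (N : ℕ) (Z Z' : ℕ → Bool) : ip N Z Z' = ip N Z' Z :=
  sum_congr rfl fun i _ => by simp [sg, eq_comm]

theorem johnson {t N : ℕ} (hN : 0 < N) {E : ℕ → ℕ → Bool} (S : Finset ℕ) (Z : ℕ → Bool)
    (h : ∀ u ∈ S, ∀ v ∈ S, v < u → ¬ Bias (2 * t ^ 2) N (E u) (E v))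
    (k : ∀ u ∈ S, Bias t N (E u) Z) : S.card ≤ 2 * t ^ 2 := by
  rcases S.eq_empty_or_nonempty with rfl | hS
  · simp
  have h0 : (0 : ℝ) < N := Nat.cast_pos.2 hN
  have hL : (0 : ℝ) < S.card := Nat.cast_pos.2 hS.card_pos
  obtain ⟨s, s1, s2⟩ : ∃ s : ℕ → ℝ, (∀ u, |s u| = 1) ∧ ∀ u, s u * ip N (E u) Z = |ip N (E u) Z| :=
    ⟨fun u => if 0 ≤ ip N (E u) Z then 1 else -1, fun u => by dsimp only; split_ifs <;> simp,
      fun u => by
        dsimp only
        split_ifs with c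
        exacts [by rw [one_mul, abs_of_nonneg c], by rw [neg_one_mul, abs_of_neg (not_le.1 c)]]⟩
  have a1 : (S.card : ℝ) * N < t * ∑ i ∈ range N, ∑ u ∈ S, s u * sg (E u i) (Z i) := by
    rw [sum_comm, mul_sum, ← nsmul_eq_mul, ← sum_const]
    exact sum_lt_sum_of_nonempty hS fun u hu => by
      rw [← mul_sum]; exact (bias_iff.1 (k u hu)).trans_eq (congrArg _ (s2 u).symm)
  have a2 := sq_sum_le_card_mul_sum_sq (s := range N) (f := fun i => ∑ u ∈ S, s u * sg (E u i) (Z i))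
  have a3 : 2 * (t : ℝ) ^ 2 * ∑ i ∈ range N, (∑ u ∈ S, s u * sg (E u i) (Z i)) ^ 2 ≤
      S.card * (2 * t ^ 2 * N + S.card * N) := by
    simp only [sq (∑ u ∈ S, _), sum_mul_sum]
    rw [sum_comm, mul_sum, ← nsmul_eq_mul, ← sum_const]
    refine sum_le_sum fun u hu => ?_
    rw [sum_comm, mul_sum]
    refine (sum_le_sum (g := fun v => (if u = v then 2 * (t : ℝ) ^ 2 * N else 0) + (N : ℝ))
      fun v hv => ?_).trans_eq (by simp [sum_add_distrib, hu])
    have b1 : ∑ i ∈ range N, s u * sg (E u i) (Z i) * (s v * sg (E v i) (Z i)) ≤ |ip N (E u) (E v)| := by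
      refine le_trans (le_of_eq ?_) ((le_abs_self (s u * s v * ip N (E u) (E v))).trans_eq
        (by rw [abs_mul, abs_mul, s1, s1, one_mul, one_mul]))
      rw [ip, mul_sum]
      refine sum_congr rfl fun i _ => ?_
      unfold sg
      cases E u i <;> cases E v i <;> cases Z i <;> simp
    refine (mul_le_mul_of_nonneg_left b1 (by positivity)).trans ?_
    split_ifs with c
    · subst c
      simp [ip, sg, h0.le]
    · rw [zero_add]
      rcases Nat.lt_or_gt_of_ne c with c | c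
      · rw [ip_comm]; exact_mod_cast not_lt.1 (mt bias_iff.2 (h v hv u hu c))
      · exact_mod_cast not_lt.1 (mt bias_iff.2 (h u hu v hv c))
  rw [card_range] at a2
  have a4 := pow_lt_pow_left₀ a1 (by positivity) two_ne_zero
  rw [← Nat.cast_le (α := ℝ)]
  push_cast
  refine le_of_mul_le_mul_right ?_ (show 0 < (S.card : ℝ) * N * N by positivity)
  nlinarith [mul_le_mul_of_nonneg_left a2 (sq_nonneg (t : ℝ)), mul_le_mul_of_nonneg_left a3 h0.le]

end Pool.Agent.H.MP_f1effe_lc
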