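import Pool.Agent.H.MP_f1effe_lc.A

set_option autoImplicit false

/-! A computable set agreeing with density one half. -/

namespace Pool.Agent.H.MP_f1effe_lc

open Filter Pool.Agent.Lib.helper21 Encodable Pool.Agent.Lib.helper21.PR Finset Topology
open Pool.Agent.H.MP_65fbb9_lc

attribute [local irreducible] Primrec Computable

variable {A : ℕ → Bool}

theorem dens {e : ℕ → ℝ} {σ : ℕ → ℕ} (h1 : ∀ k, |e k| ≤ 1) (h2 : ∀ j, σ j ≤ j)
    (h3 : Tendsto σ atTop atTop) (h4 : ∀ᶠ j in atTop, ∀ p < 2 ^ σ j,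
      2 ^ σ j * |∑ i ∈ range (2 ^ (j - σ j)), e (2 ^ j + p * 2 ^ (j - σ j) + i)| ≤ 2 ^ (j - σ j)) :
    Tendsto (fun m : ℕ => (∑ k ∈ range m, e k) / m) atTop (𝓝 0) := by
  have h0 : ∀ a n, |∑ i ∈ range n, e (a + i)| ≤ n := fun a n =>
    (abs_sum_le_sum_abs _ _).trans ((sum_le_card_nsmul _ _ 1 fun _ _ => h1 _).trans_eq (by simp))
  refine Metric.tendsto_nhds.2 fun ε hε => ?_
  obtain ⟨r, hr⟩ := pow_unbounded_of_one_lt (3 / ε) (one_lt_two (α := ℝ))
  obtain ⟨J, hJ⟩ := eventually_atTop.1 (h4.and (h3.eventually_ge_atTop r))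
  have a1 : ∀ j, J ≤ j → 2 ^ r * |∑ k ∈ range (2 ^ j), e k| ≤ 2 ^ r * 2 ^ J + 2 ^ j →
      ∀ p ≤ 2 ^ σ j, 2 ^ r * |∑ k ∈ range (2 ^ j + p * 2 ^ (j - σ j)), e k| ≤
        2 ^ r * 2 ^ J + (2 ^ j + p * 2 ^ (j - σ j)) := fun j hj k p hp => by
    induction p with
    | zero => simpa
    | succ p ih =>
      have b1 := ih (by omega)
      have b2 := (mul_le_mul_of_nonneg_right (pow_le_pow_right₀ one_le_two (hJ j hj).2)
        (abs_nonneg _)).trans ((hJ j hj).1 p hp)
      rw [add_mul, one_mul, ← add_assoc, sum_range_add]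
      refine (mul_le_mul_of_nonneg_left (abs_add_le _ _) (by positivity)).trans ?_
      push_cast
      linarith
  have a2 : ∀ j, J ≤ j → 2 ^ r * |∑ k ∈ range (2 ^ j), e k| ≤ 2 ^ r * 2 ^ J + 2 ^ j := fun j hj => by
    induction j, hj using Nat.le_induction with
    | base =>
      have := h0 0 (2 ^ J)
      simp only [zero_add, Nat.cast_pow, Nat.cast_ofNat] at this
      exact (mul_le_mul_of_nonneg_left this (by positivity)).trans (le_add_of_nonneg_right (by positivity))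
    | succ j hj ih =>
      have := a1 j hj ih _ le_rfl
      rwa [Nat.cast_pow, Nat.cast_ofNat, ← pow_add, ← pow_add _ (σ j), Nat.add_sub_cancel' (h2 j),
        ← two_mul, ← two_mul, ← pow_succ', ← pow_succ'] at this
  filter_upwards [eventually_ge_atTop (2 ^ r * 2 ^ J), lg_top.eventually_ge_atTop J] with m b1 b2
  have b0 : 0 < m := lt_of_lt_of_le (by positivity) b1
  obtain ⟨d, b3⟩ := Nat.exists_eq_add_of_le (Nat.pow_log_le_self 2 b0.ne')
  have b4 := Nat.lt_pow_succ_log_self one_lt_two m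
  generalize Nat.log 2 m = j at b2 b3 b4
  have b5 : 2 ^ j = 2 ^ σ j * 2 ^ (j - σ j) := by rw [← pow_add, Nat.add_sub_cancel' (h2 j)]
  have b6 := a1 j b2 (a2 j b2) (d / 2 ^ (j - σ j)) (Nat.div_le_of_le_mul (by
    rw [mul_comm, ← b5]; rw [Nat.pow_succ] at b4; omega))
  have b7 := Nat.div_add_mod' d (2 ^ (j - σ j))
  have b8 := h0 (2 ^ j + d / 2 ^ (j - σ j) * 2 ^ (j - σ j)) (d % 2 ^ (j - σ j))
  have b9 : 2 ^ r * (d % 2 ^ (j - σ j)) ≤ m := (Nat.mul_le_mul (Nat.pow_le_pow_right two_pos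
    (hJ j b2).2) (Nat.mod_lt _ (by positivity)).le).trans (by omega)
  have c1 : 2 ^ r * 2 ^ J + (2 ^ j + d / 2 ^ (j - σ j) * 2 ^ (j - σ j)) +
    2 ^ r * (d % 2 ^ (j - σ j)) ≤ 3 * m := by omega
  have c2 : (2 : ℝ) ^ r * |∑ k ∈ range m, e k| ≤ 3 * m := by
    conv_lhs => rw [b3, ← b7, ← add_assoc, sum_range_add]
    refine (mul_le_mul_of_nonneg_left ((abs_add_le _ _).trans (add_le_add le_rfl b8))
      (by positivity)).trans ?_
    rw [mul_add]
    exact (add_le_add b6 le_rfl).trans (by exact_mod_cast c1)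
  have c3 : (0 : ℝ) < m := Nat.cast_pos.2 b0
  rw [dist_zero_right, Real.norm_eq_abs, abs_div, abs_of_pos c3, div_lt_iff₀ c3]
  rw [div_lt_iff₀ hε] at hr
  exact lt_of_mul_lt_mul_left (a := 2 ^ r) (by nlinarith) (by positivity)

theorem ci_filter {P : ℕ → ℕ → Prop} {i : ∀ a v, Decidable (P a v)} {m : ℕ → ℕ}
    (h : CI A fun z : ℕ × ℕ => cd (P z.1 z.2)) (hm : CI A m) :
    CI A fun a => (List.range (m a)).filter fun v => decide (P a v) :=
  (ci_comp (f := fun l : List (ℕ × Bool) => (l.filter (·.2)).map (·.1)) (ci_prim (by fun_prop))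
    (ci_map (f := fun a v => (v, decide (P a v))) (by fun_prop) hm)).of_eq fun a => by
      simp [List.filter_map, Function.comp_def]

theorem cap_pow {H m : ℕ → ℕ} (hH : Primrec H) (hm : Primrec m) (s : ℕ) :
    Cap A (fun j => H j ^ (s + 1)) (fun j => m j ^ (s + 1)) → Cap A H m := by
  induction s with
  | zero => simp
  | succ s ih =>
    simp only [pow_succ' _ (s + 1)]
    exact fun k => (trick hH (by fun_prop) k).elim id ih

attribute [local fun_prop] ci_tb

theorem half {Y : ℕ → Bool} (hY : CI A Y) (h : ¬ IO A fun n => 2 ^ 2 ^ n) :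
    ∃ C, CI O C ∧ ld Y C = 1 / 2 := by
  have := lg (A := O)
  let q : ℕ → ℕ := fun s => 2 ^ 2 ^ (s + 1) * 2 ^ s * 5
  have hq : Primrec q := by unfold q; fun_prop
  obtain ⟨L, h1, h2⟩ := RI.choice (Y := O) (R := fun (z : ℕ × ℕ) (L : List ℕ) => 2 ^ (z.1 + 4) ≤ z.2 →
    ∀ u < 2 ^ q z.1, ∀ v < u, ¬ Bias (2 * (2 ^ z.1) ^ 2) (2 ^ (z.2 - z.1)) (Fn.tb (L.getD u 0))
      (Fn.tb (L.getD v 0))) (i_re (r_prim (by
        have : Primrec fun z : ℕ × ℕ => Fn.tb z.1 z.2 := Fn.tb_prim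
        unfold Bias ds; fun_prop))) fun ⟨s, j⟩ => by
    by_cases c : 2 ^ (s + 4) ≤ j
    · refine (code (q := q s) (by positivity) ?_ _ le_rfl).imp fun _ k _ => k.2
      have := Nat.lt_two_pow_self (n := s)
      calc _ ≤ 2 * (2 * (2 ^ s) ^ 2) ^ 2 * (2 ^ 2 ^ (s + 1) * 2 ^ s * 8) := by
            have : 0 < 2 ^ 2 ^ (s + 1) * 2 ^ s := by positivity
            exact Nat.mul_le_mul_left _ (by unfold q; omega)
        _ = 2 ^ (2 ^ (s + 1) + 5 * s + 6) := by ring
        _ ≤ _ := Nat.pow_le_pow_right two_pos (by rw [pow_add] at c ⊢; omega)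
    · exact ⟨[], fun k => absurd k c⟩
  have h3 : CI O fun z : ℕ × ℕ × ℕ => (L (z.1, z.2.1)).getD z.2.2 0 :=
    ci_comp (f := fun z : List ℕ × ℕ => z.1.getD z.2 0)
      (g := fun z : ℕ × ℕ × ℕ => (L (z.1, z.2.1), z.2.2)) (ci_prim (by fun_prop)) (by fun_prop)
  replace h2 := fun s j => h2 (s, j)
  generalize hE : (fun s j v => (L (s, j)).getD v 0) = E
  simp only [show ∀ s j v, (L (s, j)).getD v 0 = E s j v from fun _ _ _ => hE ▸ rfl] at h2 h3
  have h4 := up (A := A) h3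
  have h5 := mt (fun k => Cap.io (B := fun s => 2 ^ 2 ^ 2 ^ (s + 1) - 1) (by fun_prop) (fun j i hi => by
    rw [Nat.sub_add_cancel Nat.one_le_two_pow, pow_succ 2 j]; gcongr <;> omega)
    (cap_pow (by fun_prop) (by fun_prop) 4 k)) h
  simp only [Nat.sub_add_cancel Nat.one_le_two_pow, ← pow_mul, Cap, not_exists, not_and, not_forall,
    not_frequently] at h5
  obtain ⟨y, a1, a2, a3⟩ := h5 (fun s => (List.range (2 ^ q s)).filter fun v => decide
    (∃ j < 2 ^ (s + 5), 2 ^ (s + 4) ≤ j ∧ ∃ p < 2 ^ s, Bias (2 ^ s) (2 ^ (j - s)) (Fn.tb (E s j v))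
      fun i => Y (2 ^ j + p * 2 ^ (j - s) + i)))
    (ci_filter (by unfold Bias ds; fun_prop) (by fun_prop)) (by
      filter_upwards [eventually_ge_atTop 6] with s hs
      refine (card_le_card (s := (range (2 ^ q s)).filter _) (t := ((range (2 ^ (s + 5))).filter
        (2 ^ (s + 4) ≤ ·)).biUnion fun j => (range (2 ^ s)).biUnion fun p => (range (2 ^ q s)).filter
          fun v => Bias (2 ^ s) (2 ^ (j - s)) (Fn.tb (E s j v))
            fun i => Y (2 ^ j + p * 2 ^ (j - s) + i)) fun v hv => ?_).trans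
        ((card_biUnion_le_card_mul _ _ _ fun j hj => card_biUnion_le_card_mul _ _ _ fun p _ =>
          johnson (E := fun v => Fn.tb (E s j v)) (by positivity) _ _ (fun u hu v _ =>
            h2 s j (mem_filter.1 hj).2 u (mem_range.1 (mem_filter.1 hu).1) v)
            fun u hu => (mem_filter.1 hu).2).trans ?_)
      · obtain ⟨b1, j, b2, b3, p, b4, b5⟩ := mem_filter.1 hv
        simp only [mem_biUnion, mem_filter, mem_range] at b1 ⊢
        exact ⟨j, ⟨b2, b3⟩, p, b4, b1, b5⟩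
      · refine (Nat.mul_le_mul_right _ (card_filter_le _ _)).trans ?_
        rw [card_range, card_range, show 2 ^ (s + 5) * (2 ^ s * (2 * (2 ^ s) ^ 2)) =
          2 ^ (4 * s + 6) by ring]
        exact Nat.pow_le_pow_right two_pos (by omega))
  let σ : ℕ → ℕ := fun j => Nat.log 2 j - 4
  have b1 : Tendsto σ atTop atTop := (tendsto_sub_atTop_nat 4).comp lg_top
  let C : ℕ → Bool := fun k => Fn.tb (E (σ (Nat.log 2 k)) (Nat.log 2 k) (y (σ (Nat.log 2 k))))
    ((k - 2 ^ Nat.log 2 k) % 2 ^ (Nat.log 2 k - σ (Nat.log 2 k)))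
  have b2 : ∀ j, σ j ≤ j := fun j => (Nat.sub_le _ _).trans (Nat.log_le_self 2 j)
  have b3 := dens (e := fun k => sg (C k) (Y k)) (fun k => by unfold sg; split_ifs <;> simp) b2 b1 (by
    filter_upwards [b1.eventually (a2.and a3), lg_top.eventually_ge_atTop 4, eventually_ne_atTop 0]
      with j c1 c2 c3 p hp
    have c4 : Nat.log 2 j = σ j + 4 := by unfold σ; omega
    have c5 := not_lt.1 (mt bias_iff.2 fun k => c1.2 (List.mem_filter.2 ⟨List.mem_range.2 c1.1,
      decide_eq_true ⟨j, (Nat.lt_pow_succ_log_self one_lt_two j).trans_eq (by rw [c4]),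
        c4 ▸ Nat.pow_log_le_self 2 c3, p, hp, k⟩⟩))
    refine le_trans (le_of_eq ?_) (c5.trans_eq (by simp))
    rw [ip, Nat.cast_pow, Nat.cast_ofNat]
    congr 2
    refine sum_congr rfl fun i hi => ?_
    have c6 : p * 2 ^ (j - σ j) + i < 2 ^ j := by
      have : 2 ^ j = 2 ^ σ j * 2 ^ (j - σ j) := by rw [← pow_add, Nat.add_sub_cancel' (b2 j)]
      nlinarith [mem_range.1 hi]
    simp only [C, add_assoc, lg_add c6, Nat.add_sub_cancel_left, Nat.mul_add_mod_self_right,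
      Nat.mod_eq_of_lt (mem_range.1 hi)])
  refine ⟨C, by unfold C σ; fun_prop, Tendsto.liminf_eq ?_⟩
  refine (((b3.const_add 1).div_const 2).congr' ?_).trans_eq (by simp)
  filter_upwards [eventually_gt_atTop 0] with m hm
  have c1 := ip_eq m C Y
  have c2 := congrArg (Nat.cast (R := ℝ)) (card_filter_add_card_filter_not (s := range m)
    fun i => Y i = C i)
  simp only [ip, ds, ne_eq, eq_comm (a := C _)] at c1
  rw [card_range, Nat.cast_add] at c2
  field_simp
  linarith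

end Pool.Agent.H.MP_f1effe_lc
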